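import Pool.Agent.Q247.MT.Ax

set_option autoImplicit false

/-!
# The modular topology of a convex modular need not be regular

Q1 asks whether the modular topology `τ_ρ` is regular for every convex, left-continuous modular `ρ`
on a real vector space. The answer is no: on the real sequences the modular `ρ(a) = ∑ |a_j| ^ p_j`
with any unbounded exponents `p_j ≥ 1`, for instance `p_j = j + 1`, is convex and left-continuous
and has the Fatou property, `τ_ρ` is Hausdorff, but not regular.
-/

namespace Pool.Agent.Results.MP_106cb8_an.NotRegular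

open Pool.Agent.Q247.MT Filter Topology Set
open scoped ENNReal

/-- There is a convex, left-continuous modular on the vector space of the real sequences, with the
Fatou property, whose modular topology is Hausdorff and not regular: there are a closed set `F` and
a point `x ∉ F` such that every open set containing `x` meets every open set containing `F`. All the
modulars `∑ |a_j| ^ p_j` with unbounded exponents `p_j ≥ 1` have these properties. -/
theorem result :
    (∃ ρ : (ℕ → ℝ) → ℝ≥0∞, IsModular ρ ∧ Fatou ρ ∧
      @T2Space (Space ρ) (modularTopology ρ) ∧ ¬ @RegularSpace (Space ρ) (modularTopology ρ) ∧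
      ∃ F : Set (Space ρ), IsClosed[modularTopology ρ] F ∧ ∃ x : Space ρ, x ∉ F ∧
        ∀ U V : Set (Space ρ), IsOpen[modularTopology ρ] U → IsOpen[modularTopology ρ] V →
          x ∈ U → F ⊆ V → (U ∩ V).Nonempty) ∧
    ∀ p : ℕ → ℝ, (∀ n, 1 ≤ p n) → ¬ BddAbove (range p) →
      IsModular (rho p) ∧ Fatou (rho p) ∧
      @T2Space (Space (rho p)) (modularTopology (rho p)) ∧
      ¬ @RegularSpace (Space (rho p)) (modularTopology (rho p)) := by
  have main : ∀ p : ℕ → ℝ, (∀ n, 1 ≤ p n) → ¬ BddAbove (range p) →
      IsModular (rho p) ∧ Fatou (rho p) ∧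
      @T2Space (Space (rho p)) (modularTopology (rho p)) ∧
      ¬ @RegularSpace (Space (rho p)) (modularTopology (rho p)) := fun p hp hunb =>
    ⟨isModular hp, fatou hp, t2 hp, not_regularSpace (fun n => by linarith [hp n]) hunb⟩
  refine ⟨?_, main⟩
  let p : ℕ → ℝ := fun n => (n : ℝ) + 1
  have hp : ∀ n, 1 ≤ p n := fun n => by
    have : (0 : ℝ) ≤ n := Nat.cast_nonneg n
    simp only [p]
    linarith
  have hunb : ¬ BddAbove (range p) := by
    rintro ⟨B, hB⟩
    obtain ⟨n, hn⟩ := exists_nat_gt B
    have h1 : p n ≤ B := hB ⟨n, rfl⟩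
    simp only [p] at h1
    linarith
  obtain ⟨h1, h2, h3, h4⟩ := main p hp hunb
  obtain ⟨F, hF, x, _, h⟩ := not_regular (fun n => by linarith [hp n]) hunb
  exact ⟨rho p, h1, h2, h3, h4, F, (isClosed_iff (rho p) F).2 hF, x, h⟩

end Pool.Agent.Results.MP_106cb8_an.NotRegular
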